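import Pool.Agent.helper47.CL.SpecD

set_option autoImplicit false

namespace Pool.Agent.helper41.CL

open Finset

theorem ZD_left {α : Type} [DecidableEq α] (V : Finset α) (E : Finset (Finset α)) (p : α) (k : ℕ) :
    ind (V.erase p) (av E {p}) k ⊆ ind V E k := by
  intro I hI
  unfold ind at hI ⊢
  obtain ⟨h1, h2⟩ := (@mem_filter _ _ (_) _ _).1 hI
  obtain ⟨h3, h4⟩ := mem_powersetCard.1 h1
  refine (@mem_filter _ _ (_) _ _).2 ⟨mem_powersetCard.2 ⟨h3.trans (erase_subset _ _), h4⟩, ?_⟩
  intro e he heI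
  have hp : p ∉ e := fun h => (mem_erase.1 (h3 (heI h))).1 rfl
  refine h2 e ?_ heI
  unfold av
  exact (@mem_filter _ _ (_) _ _).2 ⟨he, disjoint_singleton_right.2 hp⟩

theorem ZD_right {α : Type} [DecidableEq α] (V : Finset α) (E : Finset (Finset α)) (p : α) (S : Finset α)
    (k : ℕ) (hG : Gr V E) (hp : p ∈ S) (hS : S ⊆ V) (hE : ∀ e ∈ E, p ∈ e → e ⊆ S) :
    (ind (V \ S) (av E S) k).image (insert p) ⊆ ind V E (k + 1) := by
  intro I hI
  obtain ⟨J, hJ, rfl⟩ := mem_image.1 hI
  unfold ind at hJ ⊢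
  obtain ⟨h1, h2⟩ := (@mem_filter _ _ (_) _ _).1 hJ
  obtain ⟨h3, h4⟩ := mem_powersetCard.1 h1
  have hpJ : p ∉ J := fun h => (mem_sdiff.1 (h3 h)).2 hp
  refine (@mem_filter _ _ (_) _ _).2 ⟨mem_powersetCard.2 ⟨?_, ?_⟩, ?_⟩
  · exact insert_subset (hS hp) (h3.trans sdiff_subset)
  · rw [card_insert_of_notMem hpJ, h4]
  · intro e he heI
    by_cases hpe : p ∈ e
    · have h5 : e ⊆ {p} := by
        intro x hx
        rcases mem_insert.1 (heI hx) with h | h
        · rw [h]; exact mem_singleton_self p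
        · exact absurd (hE e he hpe hx) (mem_sdiff.1 (h3 h)).2
      have h6 := card_le_card h5
      rw [card_singleton, (hG e he).2] at h6
      omega
    · have h5 : e ⊆ J := by
        intro x hx
        rcases mem_insert.1 (heI hx) with h | h
        · exact absurd (h ▸ hx) hpe
        · exact h
      refine h2 e ?_ h5
      unfold av
      refine (@mem_filter _ _ (_) _ _).2 ⟨he, disjoint_left.2 fun x hx hxS => ?_⟩
      exact (mem_sdiff.1 (h3 (h5 hx))).2 hxS

theorem ZD : ZD_stmt := by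
  intro α _ V E p S k hG hp hS hE
  have hnot : ∀ J ∈ ind (V \ S) (av E S) k, p ∉ J := by
    intro J hJ h
    unfold ind at hJ
    obtain ⟨h3, -⟩ := mem_powersetCard.1 ((@mem_filter _ _ (_) _ _).1 hJ).1
    exact (mem_sdiff.1 (h3 h)).2 hp
  have hcard : #((ind (V \ S) (av E S) k).image (insert p)) = #(ind (V \ S) (av E S) k) := by
    apply card_image_of_injOn
    intro J hJ J' hJ' h
    have e1 : (insert p J).erase p = J := erase_insert (hnot J hJ)
    have e2 : (insert p J').erase p = J' := erase_insert (hnot J' hJ')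
    rw [← e1, ← e2]
    exact congrArg (fun X : Finset α => X.erase p) h
  have hdis : Disjoint (ind (V.erase p) (av E {p}) (k + 1)) ((ind (V \ S) (av E S) k).image (insert p)) := by
    rw [disjoint_left]
    intro I hI hI'
    obtain ⟨J, hJ, rfl⟩ := mem_image.1 hI'
    unfold ind at hI
    obtain ⟨h3, -⟩ := mem_powersetCard.1 ((@mem_filter _ _ (_) _ _).1 hI).1
    exact (mem_erase.1 (h3 (mem_insert_self p J))).1 rfl
  rw [← hcard, ← card_union_of_disjoint hdis]
  exact card_le_card (union_subset (ZD_left V E p (k + 1)) (ZD_right V E p S k hG hp hS hE))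

end Pool.Agent.helper41.CL
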