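import Pool.Agent.helper47.CL.SpecC

set_option autoImplicit false

namespace Pool.Agent.helper41.CL

open Finset

theorem YU : YU_stmt := by
  intro k hk
  obtain ⟨s, rfl⟩ : ∃ s, k = s + 3 := ⟨k - 3, by omega⟩
  have key : ∀ i q : ℕ, q * (s + 2) ≤ 2 * (s + 3) + (s + 2) - i →
      2 * (s + 3) + (s + 2) - i < (q + 1) * (s + 2) → partSize (2 * (s + 3)) (s + 2) i = q := by
    intro i q h1 h2
    unfold partSize
    exact Nat.div_eq_of_lt_le h1 h2
  unfold target
  rw [show s + 3 - 1 = s + 2 by omega, key 1 3 (by omega) (by omega), key 2 3 (by omega) (by omega)]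
  have h3 : ∏ i ∈ Icc 3 (s + 2), partSize (2 * (s + 3)) (s + 2) i = 2 ^ s := by
    have h4 : ∀ i ∈ Icc 3 (s + 2), partSize (2 * (s + 3)) (s + 2) i = 2 := by
      intro i hi
      have hi' := mem_Icc.1 hi
      exact key i 2 (by omega) (by omega)
    rw [Finset.prod_congr rfl h4, Finset.prod_const, Nat.card_Icc]
    congr 1
  rw [h3, pow_succ, pow_succ]
  ring

end Pool.Agent.helper41.CL
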