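import Pool.Agent.helper47.CL.SpecD

set_option autoImplicit false

namespace Pool.Agent.helper41.CL

open Finset

theorem ZH : ZH_stmt := by
  intro α _ V E a c y hG hac hne hy hyE
  have hya : y ≠ a := fun h => hyE _ hac (by rw [h]; exact mem_insert_self a {c})
  have hyc : y ≠ c := fun h => hyE _ hac (by rw [h]; exact mem_insert_of_mem (mem_singleton_self c))
  have haV : a ∈ V := (hG _ hac).1 (mem_insert_self a {c})
  have hcV : c ∈ V := (hG _ hac).1 (mem_insert_of_mem (mem_singleton_self c))
  have hycE : ({y, c} : Finset α) ∉ E := fun h => hyE _ h (mem_insert_self y {c})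
  refine ⟨?_, ?_, ?_⟩
  · intro e he
    rcases mem_insert.1 he with h | h
    · rw [h]
      refine ⟨insert_subset hy (singleton_subset_iff.2 hcV), card_pair hyc⟩
    · exact hG e (mem_erase.1 h).2
  · rw [card_insert_of_notMem (fun h => hycE (mem_erase.1 h).2), card_erase_of_mem hac]
    have := card_pos.2 ⟨_, hac⟩
    omega
  · intro k
    have key : ∀ I, I ∈ ind V (insert {y, c} (E.erase {a, c})) k ↔ ((I ⊆ V ∧ #I = k) ∧ ¬ (y ∈ I ∧ c ∈ I) ∧
        ∀ e ∈ E, e ≠ {a, c} → ¬ e ⊆ I) := by
      intro I
      unfold ind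
      rw [@mem_filter _ _ (_) _ _, mem_powersetCard]
      constructor
      · rintro ⟨h1, h2⟩
        refine ⟨h1, ?_, ?_⟩
        · rintro ⟨g1, g2⟩
          exact h2 _ (mem_insert_self _ _) (insert_subset g1 (singleton_subset_iff.2 g2))
        · intro e he hne'
          exact h2 e (mem_insert_of_mem (mem_erase.2 ⟨hne', he⟩))
      · rintro ⟨h1, h2, h3⟩
        refine ⟨h1, ?_⟩
        intro e he heI
        rcases mem_insert.1 he with h | h
        · rw [h] at heI
          exact h2 ⟨heI (mem_insert_self y {c}), heI (mem_insert_of_mem (mem_singleton_self c))⟩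
        · obtain ⟨g1, g2⟩ := mem_erase.1 h
          exact h3 e g2 g1 heI
    have key2 : ∀ I, I ∈ ind V E k ↔ ((I ⊆ V ∧ #I = k) ∧ ∀ e ∈ E, ¬ e ⊆ I) := by
      intro I
      unfold ind
      rw [@mem_filter _ _ (_) _ _, mem_powersetCard]
    refine card_le_card_of_injOn (fun I => if a ∈ I ∧ c ∈ I then insert y (I.erase a) else I) ?_ ?_
    · intro I hI
      obtain ⟨⟨h1, h2⟩, h3, h4⟩ := (key I).1 hI
      show (if a ∈ I ∧ c ∈ I then insert y (I.erase a) else I) ∈ ind V E k
      rw [key2]
      by_cases hI2 : a ∈ I ∧ c ∈ I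
      · rw [if_pos hI2]
        have hyI : y ∉ I := fun h => h3 ⟨h, hI2.2⟩
        refine ⟨⟨insert_subset hy ((erase_subset _ _).trans h1), ?_⟩, ?_⟩
        · rw [card_insert_of_notMem (fun h => hyI (mem_erase.1 h).2), card_erase_of_mem hI2.1, h2]
          have := card_pos.2 ⟨_, hI2.1⟩
          omega
        · intro e he heI
          have h5 : e ⊆ I.erase a := by
            intro x hx
            rcases mem_insert.1 (heI hx) with h | h
            · exact absurd (h ▸ hx) (hyE e he)
            · exact h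
          refine h4 e he ?_ (h5.trans (erase_subset _ _))
          rintro rfl
          exact (mem_erase.1 (h5 (mem_insert_self a {c}))).1 rfl
      · rw [if_neg hI2]
        refine ⟨⟨h1, h2⟩, ?_⟩
        intro e he heI
        refine h4 e he ?_ heI
        rintro rfl
        exact hI2 ⟨heI (mem_insert_self a {c}), heI (mem_insert_of_mem (mem_singleton_self c))⟩
    · intro I hI J hJ hIJ
      have hIJ' : (if a ∈ I ∧ c ∈ I then insert y (I.erase a) else I) =
          (if a ∈ J ∧ c ∈ J then insert y (J.erase a) else J) := hIJ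
      obtain ⟨-, h3, -⟩ := (key I).1 hI
      obtain ⟨-, g3, -⟩ := (key J).1 hJ
      by_cases hI2 : a ∈ I ∧ c ∈ I
      · by_cases hJ2 : a ∈ J ∧ c ∈ J
        · rw [if_pos hI2, if_pos hJ2] at hIJ'
          have e1 : (insert y (I.erase a)).erase y = I.erase a :=
            erase_insert (fun h => h3 ⟨(mem_erase.1 h).2, hI2.2⟩)
          have e2 : (insert y (J.erase a)).erase y = J.erase a :=
            erase_insert (fun h => g3 ⟨(mem_erase.1 h).2, hJ2.2⟩)
          rw [← insert_erase hI2.1, ← insert_erase hJ2.1, ← e1, ← e2, hIJ']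
        · rw [if_pos hI2, if_neg hJ2] at hIJ'
          exfalso
          apply g3
          rw [← hIJ']
          exact ⟨mem_insert_self _ _, mem_insert_of_mem (mem_erase.2 ⟨hne.symm, hI2.2⟩)⟩
      · by_cases hJ2 : a ∈ J ∧ c ∈ J
        · rw [if_neg hI2, if_pos hJ2] at hIJ'
          exfalso
          apply h3
          rw [hIJ']
          exact ⟨mem_insert_self _ _, mem_insert_of_mem (mem_erase.2 ⟨hne.symm, hJ2.2⟩)⟩
        · rw [if_neg hI2, if_neg hJ2] at hIJ'
          exact hIJ'

end Pool.Agent.helper41.CL
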